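import Pool.Agent.Q38.GE.Stm

/-!
# Job TR of project GE (helper38), by helper68: basic properties of the transductions
-/

set_option autoImplicit false

namespace Pool.Agent.Q68.GE

open Q38.GE Matrix

variable {K : Type} [Field K] {n : ℕ}

/-- the matrix whose upper right entry is `tr i a` -/
noncomputable def mt (i : Fin n) : A K n →ₐ[K] Matrix (Fin 2) (Fin 2) (A K n) :=
  ev (K := K) (fun j => !![0, if j = i then (1 : A K n) else 0; 0, x K j])

theorem mt_x (i j : Fin n) : mt (K := K) i (x K j) = !![0, if j = i then (1 : A K n) else 0; 0, x K j] := by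
  unfold mt ev
  rw [FreeAlgebra.lift_ι_apply]

theorem tr_def (i : Fin n) (a : A K n) : tr i a = mt i a 0 1 := rfl

theorem ep_x (j : Fin n) : ep (x K j) = 0 := by
  unfold ep FreeAlgebra.algebraMapInv
  rw [FreeAlgebra.lift_ι_apply]
  rfl

theorem ep_alg (r : K) : ep (algebraMap K (A K n) r) = r := by
  rw [AlgHom.commutes]
  rfl

theorem mt_prop (i : Fin n) (a : A K n) : mt i a 0 0 = algebraMap K _ (ep a) ∧ mt i a 1 0 = 0 ∧
    mt i a 1 1 = a := by
  induction a using FreeAlgebra.induction with
  | grade0 r =>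
    rw [AlgHom.commutes, ep_alg, Matrix.algebraMap_matrix_apply, Matrix.algebraMap_matrix_apply,
      Matrix.algebraMap_matrix_apply]
    simp
  | grade1 j =>
    have h := mt_x (K := K) i j
    have h2 := ep_x (K := K) j
    unfold x at h h2
    rw [h, h2]
    simp
  | mul a b ha hb =>
    obtain ⟨a1, a2, a3⟩ := ha
    obtain ⟨b1, b2, b3⟩ := hb
    rw [map_mul, Matrix.mul_apply, Matrix.mul_apply, Matrix.mul_apply, Fin.sum_univ_two,
      Fin.sum_univ_two, Fin.sum_univ_two, a1, a2, a3, b1, b2, b3, map_mul, map_mul]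
    simp
  | add a b ha hb =>
    obtain ⟨a1, a2, a3⟩ := ha
    obtain ⟨b1, b2, b3⟩ := hb
    rw [map_add, Matrix.add_apply, Matrix.add_apply, Matrix.add_apply, a1, a2, a3, b1, b2, b3,
      map_add, map_add]
    simp

theorem tr_mul (i : Fin n) (a b : A K n) :
    tr i (a * b) = algebraMap K _ (ep a) * tr i b + tr i a * b := by
  rw [tr_def, tr_def, tr_def, map_mul, Matrix.mul_apply, Fin.sum_univ_two, (mt_prop i a).1,
    (mt_prop i b).2.2]

theorem tr_alg (i : Fin n) (k : K) : tr i (algebraMap K (A K n) k) = 0 := by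
  rw [tr_def, AlgHom.commutes, Matrix.algebraMap_matrix_apply]
  simp

theorem tr_x (i j : Fin n) : tr i (x K j) = if j = i then 1 else 0 := by
  rw [tr_def, mt_x]
  simp

theorem tr_xmul (i j : Fin n) (a : A K n) : tr i (x K j * a) = if j = i then a else 0 := by
  rw [tr_mul, ep_x, tr_x, map_zero, zero_mul, zero_add, ite_mul, one_mul, zero_mul]

theorem tr_dec (a : A K n) : a = algebraMap K _ (ep a) + ∑ i, x K i * tr i a := by
  induction a using FreeAlgebra.induction with
  | grade0 r =>
    rw [ep_alg]
    simp [tr_alg]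
  | grade1 j =>
    have h2 : ∀ i, tr i (FreeAlgebra.ι K j) = if j = i then (1 : A K n) else 0 := fun i => tr_x i j
    have h3 : ep (FreeAlgebra.ι K j : A K n) = 0 := ep_x j
    rw [h3, map_zero, zero_add]
    simp only [h2, mul_ite, mul_one, mul_zero, Finset.sum_ite_eq, Finset.mem_univ, if_true]
  | mul a b ha hb =>
    have h1 : ∑ i, x K i * tr i (a * b) = algebraMap K _ (ep a) * ∑ i, x K i * tr i b +
        (∑ i, x K i * tr i a) * b := by
      rw [Finset.mul_sum, Finset.sum_mul, ← Finset.sum_add_distrib]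
      refine Finset.sum_congr rfl fun i _ => ?_
      rw [tr_mul, mul_add, ← mul_assoc, ← mul_assoc, ← mul_assoc, Algebra.commutes (ep a) (x K i)]
    have ha' : ∑ i, x K i * tr i a = a - algebraMap K _ (ep a) := by
      rw [eq_sub_iff_add_eq', ← ha]
    have hb' : ∑ i, x K i * tr i b = b - algebraMap K _ (ep b) := by
      rw [eq_sub_iff_add_eq', ← hb]
    rw [h1, ha', hb', map_mul, map_mul, mul_sub, sub_mul]
    abel
  | add a b ha hb =>
    have h1 : ∑ i, x K i * tr i (a + b) = ∑ i, x K i * tr i a + ∑ i, x K i * tr i b := by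
      rw [← Finset.sum_add_distrib]
      refine Finset.sum_congr rfl fun i _ => ?_
      rw [map_add, mul_add]
    rw [h1, map_add, map_add]
    conv_lhs => rw [ha, hb]
    abel

theorem trw_zero (u : Wd n) : trw u (0 : A K n) = 0 := by
  induction u with
  | nil => rfl
  | cons i u ih =>
    show trw u (tr i 0) = 0
    rw [map_zero, ih]

theorem trw_add (u : Wd n) (a b : A K n) : trw u (a + b) = trw u a + trw u b := by
  induction u generalizing a b with
  | nil => rfl
  | cons i u ih =>
    show trw u (tr i (a + b)) = trw u (tr i a) + trw u (tr i b)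
    rw [map_add, ih]

theorem trw_alg (u : Wd n) (k : K) (a : A K n) : trw u (algebraMap K _ k * a) =
    algebraMap K _ k * trw u a := by
  induction u generalizing a with
  | nil => rfl
  | cons i u ih =>
    show trw u (tr i (algebraMap K _ k * a)) = algebraMap K _ k * trw u (tr i a)
    rw [tr_mul, tr_alg, zero_mul, add_zero, ep_alg, ih]

theorem trw_append (i : Fin n) (u : Wd n) (a : A K n) : trw (u ++ [i]) a = tr i (trw u a) := by
  induction u generalizing a with
  | nil => rfl
  | cons j u ih => exact ih (tr j a)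

theorem trw_mul (N M : ℕ) (b : A K n) (hb : ∀ u : Wd n, M ≤ u.length → trw u b = 0) :
    ∀ a : A K n, (∀ u : Wd n, N ≤ u.length → trw u a = 0) → ∀ u : Wd n, N + M ≤ u.length →
      trw u (a * b) = 0 := by
  induction N with
  | zero =>
    intro a ha u _
    have h0 : a = 0 := ha [] (Nat.zero_le _)
    rw [h0, zero_mul, trw_zero]
  | succ N ih =>
    intro a ha u hu
    rcases u with _ | ⟨i, u⟩
    · simp at hu
    · rw [List.length_cons] at hu
      show trw u (tr i (a * b)) = 0
      rw [tr_mul, trw_add, trw_alg]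
      have h1 : trw u (tr i b) = 0 := hb (i :: u) (by rw [List.length_cons]; omega)
      rw [h1, mul_zero, zero_add]
      refine ih (tr i a) (fun v hv => ?_) u (by omega)
      exact ha (i :: v) (by rw [List.length_cons]; omega)

theorem trw_fin (a : A K n) : ∃ N : ℕ, ∀ u : Wd n, N ≤ u.length → trw u a = 0 := by
  induction a using FreeAlgebra.induction with
  | grade0 r =>
    refine ⟨1, fun u hu => ?_⟩
    rcases u with _ | ⟨i, u⟩
    · simp at hu
    · show trw u (tr i (algebraMap K _ r)) = 0
      rw [tr_alg, trw_zero]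
  | grade1 j =>
    refine ⟨2, fun u hu => ?_⟩
    rcases u with _ | ⟨i, _ | ⟨k, u⟩⟩
    · simp at hu
    · simp at hu
    · show trw u (tr k (tr i (x K j))) = 0
      rw [tr_x]
      split_ifs
      · have h := tr_alg (K := K) (n := n) k 1
        rw [map_one] at h
        rw [h, trw_zero]
      · rw [map_zero, trw_zero]
  | mul a b ha hb =>
    obtain ⟨N, hN⟩ := ha
    obtain ⟨M, hM⟩ := hb
    exact ⟨N + M, fun u hu => trw_mul N M b hM a hN u hu⟩
  | add a b ha hb =>
    obtain ⟨N, hN⟩ := ha
    obtain ⟨M, hM⟩ := hb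
    refine ⟨N + M, fun u hu => ?_⟩
    rw [trw_add, hN u (by omega), hM u (by omega), add_zero]

theorem trw_sep (N : ℕ) : ∀ a : A K n, (∀ u : Wd n, N ≤ u.length → trw u a = 0) →
    (∀ u, ep (trw u a) = 0) → a = 0 := by
  induction N with
  | zero => exact fun a ha _ => ha [] (Nat.zero_le _)
  | succ N ih =>
    intro a ha he
    have h1 : ∀ i, tr i a = 0 := fun i => ih (tr i a)
      (fun u hu => ha (i :: u) (by rw [List.length_cons]; omega)) (fun u => he (i :: u))
    have h2 : ep a = 0 := he []
    rw [tr_dec a, h2, map_zero, zero_add]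
    simp [h1]

/-- JOB TR of project GE -/
theorem tr_all : S_TR := by
  intro K _ n
  refine ⟨tr_dec, tr_alg, tr_xmul, fun a ha => ?_, trw_fin, trw_append⟩
  obtain ⟨N, hN⟩ := trw_fin a
  exact trw_sep N a hN ha

end Pool.Agent.Q68.GE
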